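import Pool.Agent.helper67ST.Main

/-!
# Nonfree arrangements with palindromic Solomon-Terao polynomial at `t = -1`
over every field of characteristic different from 2 and 3, in every dimension at least 16
-/

set_option autoImplicit false

namespace Pool.Agent.Results.MP_fe1391_co.EveryFieldEveryDimension

/-- Let `K` be any field with `6 ≠ 0` in `K`, and `ℓ ≥ 16`. There is a central arrangement `A` of
hyperplanes in `K^ℓ` (`A` a finite set of kernels of nonzero linear forms), essential (the
intersection of its members is `0`), such that the module of logarithmic derivations of `A` is not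
free, while `Ψ(A; x, -1) = ∑_{p = 0}^ℓ Hilb(D^p(A); x) (-x)^p` is a nonzero palindromic polynomial
with integer coefficients. -/
theorem result (K : Type) [Field K] (h6 : (6 : K) ≠ 0) (ℓ : ℕ) (hℓ : 16 ≤ ℓ) :
    ∃ A : Finset (Submodule K (Fin ℓ → K)),
      (∀ H ∈ A, ∃ a : Module.Dual K (Fin ℓ → K), a ≠ 0 ∧ LinearMap.ker a = H) ∧
      (⨅ H ∈ A, H) = ⊥ ∧
      ¬ Module.Free (MvPolynomial (Fin ℓ) K)
          (Submodule.span (MvPolynomial (Fin ℓ) K)
            {θ : Derivation K (MvPolynomial (Fin ℓ) K) (MvPolynomial (Fin ℓ) K) |
              ∀ H ∈ A, ∀ a : Module.Dual K (Fin ℓ → K), LinearMap.ker a = H →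
                (∑ i : Fin ℓ, MvPolynomial.C (a (Pi.single i 1)) * MvPolynomial.X i) ∣
                  θ (∑ i : Fin ℓ, MvPolynomial.C (a (Pi.single i 1)) * MvPolynomial.X i)}) ∧
      ∃ f : Polynomial ℤ, f ≠ 0 ∧ f.reverse = f ∧
        (f : PowerSeries ℤ) =
          ∑ p ∈ Finset.range (ℓ + 1),
            PowerSeries.mk (fun k : ℕ =>
                ((Module.finrank K
                  (Submodule.span K
                    {θ : AlternatingMap K (MvPolynomial (Fin ℓ) K) (MvPolynomial (Fin ℓ) K) (Fin p) |
                      (∀ (v : Fin p → MvPolynomial (Fin ℓ) K) (j : Fin p)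
                          (u w : MvPolynomial (Fin ℓ) K),
                          θ (Function.update v j (u * w)) =
                            u * θ (Function.update v j w) + w * θ (Function.update v j u)) ∧
                      (∀ H ∈ A, ∀ a : Module.Dual K (Fin ℓ → K), LinearMap.ker a = H →
                          ∀ (v : Fin p → MvPolynomial (Fin ℓ) K) (j : Fin p),
                            v j = (∑ i : Fin ℓ,
                              MvPolynomial.C (a (Pi.single i 1)) * MvPolynomial.X i) →
                            (∑ i : Fin ℓ, MvPolynomial.C (a (Pi.single i 1)) * MvPolynomial.X i) ∣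
                              θ v) ∧
                      (∀ w : Fin p → Fin ℓ,
                          (θ (fun j => MvPolynomial.X (w j))).IsHomogeneous k)}) : ℕ) : ℤ))
              * (-PowerSeries.X) ^ p :=
  Pool.Agent.H67ST.main K h6 ℓ hℓ

end Pool.Agent.Results.MP_fe1391_co.EveryFieldEveryDimension
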